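import Mathlib
import Pool.Agent.H759R2.Kad.Props

open scoped ComplexOrder InnerProductSpace ComplexConjugate
open Finset

noncomputable section

namespace H759R2.Kad

universe u v

namespace Embed

set_option linter.unusedSectionVars false

variable {ι κ : Type} [Fintype ι] [Fintype κ] [DecidableEq ι] [DecidableEq κ]

/-- Extension by zero of a square array. -/
def ex (e : ι ↪ κ) {M : Type*} [Zero M] (X : ι → ι → M) (i j : κ) : M :=
  open Classical in
  if h : (∃ a, e a = i) ∧ (∃ b, e b = j) then X h.1.choose h.2.choose else 0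

theorem ex_apply (e : ι ↪ κ) {M : Type*} [Zero M] (X : ι → ι → M) (a b : ι) :
    ex e X (e a) (e b) = X a b := by
  have h : (∃ a', e a' = e a) ∧ (∃ b', e b' = e b) := ⟨⟨a, rfl⟩, ⟨b, rfl⟩⟩
  rw [ex, dif_pos h]
  rw [e.injective h.1.choose_spec, e.injective h.2.choose_spec]

theorem ex_left (e : ι ↪ κ) {M : Type*} [Zero M] (X : ι → ι → M) (i j : κ)
    (h : i ∉ Set.range e) : ex e X i j = 0 := by
  rw [ex, dif_neg]
  rintro ⟨⟨a, ha⟩, -⟩
  exact h ⟨a, ha⟩

theorem ex_right (e : ι ↪ κ) {M : Type*} [Zero M] (X : ι → ι → M) (i j : κ)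
    (h : j ∉ Set.range e) : ex e X i j = 0 := by
  rw [ex, dif_neg]
  rintro ⟨-, ⟨a, ha⟩⟩
  exact h ⟨a, ha⟩

theorem ex_ext (e : ι ↪ κ) {M : Type*} [Zero M] (X : ι → ι → M) (Y : κ → κ → M)
    (h1 : ∀ a b, Y (e a) (e b) = X a b) (h2 : ∀ i j, i ∉ Set.range e → Y i j = 0)
    (h3 : ∀ i j, j ∉ Set.range e → Y i j = 0) (i j : κ) : ex e X i j = Y i j := by
  by_cases hi : i ∈ Set.range e
  · by_cases hj : j ∈ Set.range e
    · obtain ⟨a, rfl⟩ := hi
      obtain ⟨b, rfl⟩ := hj
      rw [ex_apply, h1]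
    · rw [ex_right _ _ _ _ hj, h3 _ _ hj]
  · rw [ex_left _ _ _ _ hi, h2 _ _ hi]

variable {A : Type u} [CStarAlgebra A] [PartialOrder A] [StarOrderedRing A]

/-- The extension by zero of a matrix. -/
def exM (e : ι ↪ κ) (X : CStarMatrix ι ι A) : CStarMatrix κ κ A :=
  CStarMatrix.ofMatrix fun i j => ex e (fun a b => X a b) i j

theorem exM_def (e : ι ↪ κ) (X : CStarMatrix ι ι A) (i j : κ) :
    exM e X i j = ex e (fun a b => X a b) i j := rfl

theorem exM_apply (e : ι ↪ κ) (X : CStarMatrix ι ι A) (a b : ι) :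
    exM e X (e a) (e b) = X a b := by
  rw [exM_def, ex_apply]

theorem exM_left (e : ι ↪ κ) (X : CStarMatrix ι ι A) (i j : κ) (h : i ∉ Set.range e) :
    exM e X i j = 0 := by
  rw [exM_def, ex_left e _ _ _ h]

theorem exM_right (e : ι ↪ κ) (X : CStarMatrix ι ι A) (i j : κ) (h : j ∉ Set.range e) :
    exM e X i j = 0 := by
  rw [exM_def, ex_right e _ _ _ h]

theorem exM_ext (e : ι ↪ κ) (X : CStarMatrix ι ι A) (Y : CStarMatrix κ κ A)
    (h1 : ∀ a b, Y (e a) (e b) = X a b) (h2 : ∀ i j, i ∉ Set.range e → Y i j = 0)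
    (h3 : ∀ i j, j ∉ Set.range e → Y i j = 0) : exM e X = Y := by
  ext i j
  exact ex_ext e (fun a b => X a b) (fun i j => Y i j) h1 h2 h3 i j

/-- The extension by zero as a non-unital *-homomorphism. -/
def exH (e : ι ↪ κ) : CStarMatrix ι ι A →⋆ₙₐ[ℂ] CStarMatrix κ κ A where
  toFun X := exM e X
  map_smul' c X := by
    refine exM_ext e _ _ (fun a b => ?_) (fun i j h => ?_) (fun i j h => ?_)
    · rw [CStarMatrix.smul_apply, CStarMatrix.smul_apply, exM_apply]
      rfl
    · rw [CStarMatrix.smul_apply, exM_left e _ _ _ h, smul_zero]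
    · rw [CStarMatrix.smul_apply, exM_right e _ _ _ h, smul_zero]
  map_zero' := by
    refine exM_ext e _ _ (fun a b => ?_) (fun i j h => ?_) (fun i j h => ?_) <;> rfl
  map_add' X Y := by
    refine exM_ext e _ _ (fun a b => ?_) (fun i j h => ?_) (fun i j h => ?_)
    · rw [CStarMatrix.add_apply, CStarMatrix.add_apply, exM_apply, exM_apply]
    · rw [CStarMatrix.add_apply, exM_left e _ _ _ h, exM_left e _ _ _ h, add_zero]
    · rw [CStarMatrix.add_apply, exM_right e _ _ _ h, exM_right e _ _ _ h, add_zero]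
  map_mul' X Y := by
    refine exM_ext e _ _ (fun a b => ?_) (fun i j h => ?_) (fun i j h => ?_)
    · simp only [CStarMatrix.mul_apply]
      symm
      refine Fintype.sum_of_injective e e.injective _ _ (fun i hi => ?_) (fun i => ?_)
      · rw [exM_right e _ _ _ hi, zero_mul]
      · rw [exM_apply, exM_apply]
    · simp only [CStarMatrix.mul_apply]
      exact Finset.sum_eq_zero fun k _ => by rw [exM_left e _ _ _ h, zero_mul]
    · simp only [CStarMatrix.mul_apply]
      exact Finset.sum_eq_zero fun k _ => by rw [exM_right e _ _ _ h, mul_zero]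
  map_star' X := by
    refine exM_ext e _ _ (fun a b => ?_) (fun i j h => ?_) (fun i j h => ?_)
    · rw [CStarMatrix.star_apply, CStarMatrix.star_apply, exM_apply]
    · rw [CStarMatrix.star_apply, exM_right e _ _ _ h, star_zero]
    · rw [CStarMatrix.star_apply, exM_left e _ _ _ h, star_zero]

theorem exH_apply (e : ι ↪ κ) (X : CStarMatrix ι ι A) : exH e X = exM e X := rfl

variable {H : Type v} [NormedAddCommGroup H] [InnerProductSpace ℂ H] [CompleteSpace H]

/-- Extension by zero of a vector. -/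
def exv (e : ι ↪ κ) (ξ : HH ι H) : HH κ H :=
  WithLp.toLp 2 fun i => open Classical in if h : ∃ a, e a = i then ξ h.choose else 0

omit [CompleteSpace H] in
theorem exv_apply (e : ι ↪ κ) (ξ : HH ι H) (a : ι) : exv e ξ (e a) = ξ a := by
  have h : ∃ a', e a' = e a := ⟨a, rfl⟩
  rw [exv, PiLp.toLp_apply, dif_pos h, e.injective h.choose_spec]

omit [CompleteSpace H] in
theorem exv_out (e : ι ↪ κ) (ξ : HH ι H) (i : κ) (h : i ∉ Set.range e) : exv e ξ i = 0 := by
  rw [exv, PiLp.toLp_apply, dif_neg]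
  rintro ⟨a, ha⟩
  exact h ⟨a, ha⟩

omit [CompleteSpace H] in
theorem exv_norm (e : ι ↪ κ) (ξ : HH ι H) : ‖exv e ξ‖ ^ 2 = ‖ξ‖ ^ 2 := by
  rw [PiLp.norm_sq_eq_of_L2, PiLp.norm_sq_eq_of_L2]
  symm
  refine Fintype.sum_of_injective e e.injective _ _ (fun i hi => ?_) (fun i => ?_)
  · rw [exv_out e ξ i hi, norm_zero]
    simp
  · rw [exv_apply]

theorem amp_ex (D : A →ₗ[ℂ] (H →L[ℂ] H)) (e : ι ↪ κ) (X : CStarMatrix ι ι A) (ξ : HH ι H) :
    amp D κ (exH e X) (exv e ξ) = exv e (amp D ι X ξ) := by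
  ext i
  by_cases hi : i ∈ Set.range e
  · obtain ⟨a, rfl⟩ := hi
    rw [exv_apply, amp_apply, amp_apply]
    symm
    refine Fintype.sum_of_injective e e.injective _ _ (fun i hi => ?_) (fun i => ?_)
    · rw [exv_out e ξ i hi, map_zero]
    · rw [exv_apply, exH_apply, exM_apply]
  · rw [exv_out e _ i hi, amp_apply]
    refine Finset.sum_eq_zero fun j _ => ?_
    rw [exH_apply, exM_left e _ _ _ hi, map_zero]
    rfl

theorem tr_ex (τ : A →ₗ[ℂ] ℂ) (e : ι ↪ κ) (X : CStarMatrix ι ι A) :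
    tr τ κ (exH e X) = tr τ ι X := by
  rw [tr_apply, tr_apply]
  symm
  refine Fintype.sum_of_injective e e.injective _ _ (fun i hi => ?_) (fun i => ?_)
  · rw [exH_apply, exM_left e _ _ _ hi, map_zero]
  · rw [exH_apply, exM_apply]

end Embed

open Embed in
theorem prove_embed (h : St_block.{u, v}) : St_embed.{u, v} := by
  intro A _ _ _ H _ _ _ π D τ hD hτ hdix m l q hl hq hm γ hγ hY X ξ
  have : Nonempty (Fin m ↪ Fin q × Fin l) := by
    refine Function.Embedding.nonempty_of_card_le ?_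
    simpa using hm
  obtain ⟨e⟩ := this
  have : Nonempty (Fin q) := ⟨⟨0, hq⟩⟩
  have : Nonempty (Fin l) := ⟨⟨0, hl⟩⟩
  have key := h A H π D τ hD hτ hdix (Fin q) (Fin l) γ hγ hY (exH e X) (exv e ξ)
  rw [amp_ex, exv_norm, exv_norm, ← map_star, ← map_mul, tr_ex, Fintype.card_fin] at key
  refine key.trans ?_
  have hn : ‖exH e X‖ ≤ ‖X‖ := NonUnitalStarAlgHom.norm_apply_le (exH e) X
  have hn2 : ‖exH e X‖ ^ 2 ≤ ‖X‖ ^ 2 := pow_le_pow_left₀ (norm_nonneg _) hn 2
  gcongr

end H759R2.Kad
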